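import Pool.Agent.N165.CU.Main

set_option autoImplicit false

/-! # Renaming of variables, and the automorphism of a coordinate system -/

namespace Pool.Agent.K6.H7.SC

open MvPolynomial Pool.Agent.W427.SMC Pool.Agent.H628R4.TP Pool.Agent.N165.CU
open Pool.Agent.N475.CU (mulLeft_mem deriv_mem)

section rename

variable {σ τ : Type}

theorem conj_mem [Finite τ] (Φ : MvPolynomial σ ℂ ≃ₐ[ℂ] MvPolynomial τ ℂ)
    (Q : Module.End ℂ (MvPolynomial σ ℂ)) (hQ : Q ∈ weylS σ) :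
    ∃ R : weylS τ, ∀ p, (R : Module.End ℂ (MvPolynomial τ ℂ)) p = Φ (Q (Φ.symm p)) := by
  induction hQ using Algebra.adjoin_induction with
  | mem Q h =>
    rcases h with ⟨i, rfl⟩ | ⟨i, rfl⟩
    · refine ⟨⟨_, mulLeft_mem (Φ (X i))⟩, fun p => ?_⟩
      change Φ (X i) * p = Φ (X i * Φ.symm p)
      rw [map_mul, Φ.apply_symm_apply]
    · obtain ⟨D, hD⟩ : ∃ D : Derivation ℂ (MvPolynomial τ ℂ) (MvPolynomial τ ℂ),
          ∀ p, D p = Φ (pderiv i (Φ.symm p)) := by
        refine ⟨Derivation.mk' (Φ.toLinearMap ∘ₗ ((pderiv i : Derivation ℂ (MvPolynomial σ ℂ)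
          (MvPolynomial σ ℂ)) : MvPolynomial σ ℂ →ₗ[ℂ] MvPolynomial σ ℂ) ∘ₗ
            Φ.symm.toLinearMap) ?_, fun p => rfl⟩
        intro a b
        change Φ (pderiv i (Φ.symm (a * b))) = a • Φ (pderiv i (Φ.symm b)) +
          b • Φ (pderiv i (Φ.symm a))
        rw [map_mul, Derivation.leibniz, map_add, smul_eq_mul, smul_eq_mul, map_mul, map_mul,
          Φ.apply_symm_apply, Φ.apply_symm_apply, smul_eq_mul, smul_eq_mul]
      exact ⟨⟨_, deriv_mem D⟩, hD⟩
  | algebraMap r =>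
    refine ⟨algebraMap ℂ _ r, fun p => ?_⟩
    change r • p = Φ (r • Φ.symm p)
    rw [map_smul, Φ.apply_symm_apply]
  | add Q Q' _ _ h h' =>
    obtain ⟨R, hR⟩ := h
    obtain ⟨R', hR'⟩ := h'
    refine ⟨R + R', fun p => ?_⟩
    change (R : Module.End ℂ (MvPolynomial τ ℂ)) p + (R' : Module.End ℂ (MvPolynomial τ ℂ)) p = _
    rw [hR, hR', LinearMap.add_apply, map_add]
  | mul Q Q' _ _ h h' =>
    obtain ⟨R, hR⟩ := h
    obtain ⟨R', hR'⟩ := h'
    refine ⟨R * R', fun p => ?_⟩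
    change (R : Module.End ℂ (MvPolynomial τ ℂ)) ((R' : Module.End ℂ (MvPolynomial τ ℂ)) p) = _
    rw [hR, hR', Φ.symm_apply_apply, Module.End.mul_apply]

/-- functional equations are invariant under isomorphisms of polynomial rings -/
theorem bfun_iso [Finite τ] (Φ : MvPolynomial σ ℂ ≃ₐ[ℂ] MvPolynomial τ ℂ)
    (g : MvPolynomial σ ℂ) (b : Polynomial ℂ) (hb : IsBFunction g b) :
    IsBFunction (Φ g) b := by
  obtain ⟨P, hP⟩ := hb
  choose R hR using fun Q : weylS σ => conj_mem Φ Q.1 Q.2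
  have h0 : R 0 = 0 := by
    apply Subtype.ext
    refine LinearMap.ext fun p => ?_
    rw [hR]
    change Φ 0 = 0
    exact map_zero _
  refine ⟨P.mapRange R h0, fun s => ?_⟩
  rw [Finsupp.sum_mapRange_index (by
    intro m
    change ((s : ℂ) ^ m) • (0 : MvPolynomial τ ℂ) = 0
    exact smul_zero _)]
  have h1 := congrArg Φ (hP s)
  rw [map_mul, map_pow] at h1
  have h2 : Φ (C (b.eval (s : ℂ))) = C (b.eval (s : ℂ)) := Φ.commutes _
  rw [h2] at h1
  rw [h1, Finsupp.sum, Finsupp.sum, map_sum]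
  refine Finset.sum_congr rfl fun m _ => ?_
  rw [hR, map_smul, ← map_pow, Φ.symm_apply_apply]

theorem bfun_rename [Finite τ] (e : σ ≃ τ) (g : MvPolynomial σ ℂ) (b : Polynomial ℂ)
    (hb : IsBFunction g b) : IsBFunction (rename e g) b := by
  have h := bfun_iso (renameEquiv ℂ e) g b hb
  rwa [renameEquiv_apply] at h

theorem solCount_rename (p m : ℕ) (e : σ ≃ τ) (g : MvPolynomial σ ℤ) :
    solCount p m (rename e g) = solCount p m g := by
  unfold solCount
  refine Nat.card_congr ((Equiv.arrowCongr e.symm (Equiv.refl _)).subtypeEquiv fun x => ?_)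
  rw [aeval_rename]
  rfl

theorem poincare_rename [Fintype σ] [Fintype τ] (p : ℕ) (e : σ ≃ τ) (g : MvPolynomial σ ℤ) :
    poincare p (rename e g) = poincare p g := by
  unfold poincare
  rw [Fintype.card_congr e]
  congr 1
  funext m
  rw [solCount_rename]

theorem poincare_auto [Fintype σ] (p : ℕ) (Φ : MvPolynomial σ ℤ ≃ₐ[ℤ] MvPolynomial σ ℤ)
    (g : MvPolynomial σ ℤ) : poincare p (Φ g) = poincare p g := by
  unfold poincare
  congr 1
  funext m
  rw [c1 p m _ Φ]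

end rename

section ext

variable {A B : Type} (ι : A → B)

open Classical in
/-- the extension of an endomorphism by the identity on the other variables -/
noncomputable def extH (ψ : MvPolynomial A ℤ →ₐ[ℤ] MvPolynomial A ℤ) :
    MvPolynomial B ℤ →ₐ[ℤ] MvPolynomial B ℤ :=
  aeval fun b => if h : ∃ a, ι a = b then rename ι (ψ (X h.choose)) else X b

variable {ι} (hι : Function.Injective ι)

include hι in
theorem extH_X (ψ : MvPolynomial A ℤ →ₐ[ℤ] MvPolynomial A ℤ) (a : A) :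
    extH ι ψ (X (ι a)) = rename ι (ψ (X a)) := by
  have h : ∃ a', ι a' = ι a := ⟨a, rfl⟩
  unfold extH
  rw [aeval_X, dif_pos h, hι h.choose_spec]

theorem extH_ne (ψ : MvPolynomial A ℤ →ₐ[ℤ] MvPolynomial A ℤ) (b : B) (hb : ∀ a, ι a ≠ b) :
    extH ι ψ (X b) = X b := by
  unfold extH
  rw [aeval_X, dif_neg (by push Not; exact hb)]

include hι in
theorem extH_rename (ψ : MvPolynomial A ℤ →ₐ[ℤ] MvPolynomial A ℤ) (q : MvPolynomial A ℤ) :
    extH ι ψ (rename ι q) = rename ι (ψ q) := by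
  have h : (extH ι ψ).comp (rename ι) = (rename ι).comp ψ := by
    apply MvPolynomial.algHom_ext
    intro a
    rw [AlgHom.comp_apply, AlgHom.comp_apply, rename_X, extH_X hι]
  exact DFunLike.congr_fun h q

include hι in
theorem extH_comp (ψ φ : MvPolynomial A ℤ →ₐ[ℤ] MvPolynomial A ℤ)
    (h : ψ.comp φ = AlgHom.id ℤ _) : (extH ι ψ).comp (extH ι φ) = AlgHom.id ℤ _ := by
  apply MvPolynomial.algHom_ext
  intro b
  rw [AlgHom.comp_apply, AlgHom.id_apply]
  by_cases hb : ∃ a, ι a = b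
  · obtain ⟨a, rfl⟩ := hb
    rw [extH_X hι, extH_rename hι]
    have := DFunLike.congr_fun h (X a)
    rw [AlgHom.comp_apply, AlgHom.id_apply] at this
    rw [this, rename_X]
  · push Not at hb
    rw [extH_ne φ b hb, extH_ne ψ b hb]

/-- the extension of an automorphism by the identity on the other variables -/
noncomputable def extE (ψ : MvPolynomial A ℤ ≃ₐ[ℤ] MvPolynomial A ℤ) :
    MvPolynomial B ℤ ≃ₐ[ℤ] MvPolynomial B ℤ :=
  AlgEquiv.ofAlgHom (extH ι ψ.toAlgHom) (extH ι ψ.symm.toAlgHom)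
    (extH_comp hι _ _ (by
      apply MvPolynomial.algHom_ext
      intro a
      exact ψ.apply_symm_apply _))
    (extH_comp hι _ _ (by
      apply MvPolynomial.algHom_ext
      intro a
      exact ψ.symm_apply_apply _))

theorem extE_rename (ψ : MvPolynomial A ℤ ≃ₐ[ℤ] MvPolynomial A ℤ) (q : MvPolynomial A ℤ) :
    extE hι ψ (rename ι q) = rename ι (ψ q) :=
  extH_rename hι ψ.toAlgHom q

theorem extE_symm_rename (ψ : MvPolynomial A ℤ ≃ₐ[ℤ] MvPolynomial A ℤ) (q : MvPolynomial A ℤ) :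
    (extE hι ψ).symm (rename ι q) = rename ι (ψ.symm q) :=
  extH_rename hι ψ.symm.toAlgHom q

theorem extE_ne (ψ : MvPolynomial A ℤ ≃ₐ[ℤ] MvPolynomial A ℤ) (b : B) (hb : ∀ a, ι a ≠ b) :
    extE hι ψ (X b) = X b :=
  extH_ne ψ.toAlgHom b hb

end ext

section graph

variable {σ κ : Type} [Fintype κ]

/-- the embedding of the variables `x`, `z` into the variables `t`, `x`, `u`, `z` -/
def emb : σ ⊕ κ → Option σ ⊕ (κ ⊕ κ) := Sum.map some Sum.inr

theorem emb_inj : Function.Injective (emb : σ ⊕ κ → Option σ ⊕ (κ ⊕ κ)) := by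
  rintro (a | a) (b | b) h
  · exact congrArg Sum.inl (Option.some_injective _ (Sum.inl_injective h))
  · exact absurd h (by simp [emb])
  · exact absurd h (by simp [emb])
  · exact congrArg Sum.inr (Sum.inr_injective (Sum.inr_injective h))

theorem emb_t (a : σ ⊕ κ) : emb a ≠ Sum.inl none := by
  rcases a with a | a <;> simp [emb]

theorem emb_u (a : σ ⊕ κ) (k : κ) : emb a ≠ Sum.inr (Sum.inl k) := by
  rcases a with a | a <;> simp [emb]

/-- The polynomial `t G(x, z) + ∑_k u_k ℓ_k(x, z)`, where `ℓ_k = ψ(z_k)`. -/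
noncomputable def graph (ψ : MvPolynomial (σ ⊕ κ) ℤ ≃ₐ[ℤ] MvPolynomial (σ ⊕ κ) ℤ)
    (G : MvPolynomial (σ ⊕ κ) ℤ) : MvPolynomial (Option σ ⊕ (κ ⊕ κ)) ℤ :=
  X (Sum.inl none) * rename emb G +
    ∑ k, X (Sum.inr (Sum.inl k)) * rename emb (ψ (X (Sum.inr k)))

/-- The restriction of `G` to the subspace `ℓ_k = 0`, in the coordinates `ψ(x_i)`: the polynomial
`g(x, 0)`, where `G = ψ(g(x, z))`. -/
noncomputable def restr (ψ : MvPolynomial (σ ⊕ κ) ℤ ≃ₐ[ℤ] MvPolynomial (σ ⊕ κ) ℤ)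
    (G : MvPolynomial (σ ⊕ κ) ℤ) : MvPolynomial σ ℤ :=
  aeval (Sum.elim X fun _ => 0) (ψ.symm G)

theorem exists_quot (g : MvPolynomial (σ ⊕ κ) ℤ) : ∃ q : κ → MvPolynomial (σ ⊕ κ) ℤ,
    g = rename Sum.inl (aeval (Sum.elim X fun _ => 0) g : MvPolynomial σ ℤ) +
      ∑ k, q k * X (Sum.inr k) := by
  classical
  induction g using MvPolynomial.induction_on with
  | C a =>
    refine ⟨0, ?_⟩
    have h : (aeval (Sum.elim X fun _ => 0) (C a : MvPolynomial (σ ⊕ κ) ℤ) :
        MvPolynomial σ ℤ) = C a := by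
      rw [aeval_C]; rfl
    rw [h, rename_C]
    simp
  | add f g hf hg =>
    obtain ⟨q, hq⟩ := hf
    obtain ⟨r, hr⟩ := hg
    refine ⟨fun k => q k + r k, ?_⟩
    rw [map_add, map_add]
    simp only [add_mul]
    rw [Finset.sum_add_distrib]
    conv_lhs => rw [hq, hr]
    ring
  | mul_X f i hf =>
    obtain ⟨q, hq⟩ := hf
    rcases i with i | k
    · refine ⟨fun k => q k * X (Sum.inl i), ?_⟩
      rw [map_mul, aeval_X, Sum.elim_inl, map_mul, rename_X]
      conv_lhs => rw [hq]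
      rw [add_mul, Finset.sum_mul]
      congr 1
      exact Finset.sum_congr rfl fun k _ => by ring
    · refine ⟨Pi.single k f, ?_⟩
      rw [map_mul, aeval_X, Sum.elim_inr, mul_zero, map_zero, zero_add,
        Finset.sum_eq_single k]
      · rw [Pi.single_eq_same]
      · intro j _ hj
        rw [Pi.single_eq_of_ne hj, zero_mul]
      · intro h
        exact absurd (Finset.mem_univ k) h

/-- `u_k ↦ u_k + t q_k(x, z)` -/
noncomputable def shH (q : κ → MvPolynomial (σ ⊕ κ) ℤ) :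
    MvPolynomial (Option σ ⊕ (κ ⊕ κ)) ℤ →ₐ[ℤ] MvPolynomial (Option σ ⊕ (κ ⊕ κ)) ℤ :=
  aeval (Sum.elim (fun i => X (Sum.inl i)) (Sum.elim
    (fun k => X (Sum.inr (Sum.inl k)) + X (Sum.inl none) * rename emb (q k))
    fun k => X (Sum.inr (Sum.inr k))))

theorem shH_l (q : κ → MvPolynomial (σ ⊕ κ) ℤ) (i : Option σ) :
    shH q (X (Sum.inl i)) = X (Sum.inl i) := by
  unfold shH
  rw [aeval_X, Sum.elim_inl]

theorem shH_v (q : κ → MvPolynomial (σ ⊕ κ) ℤ) (k : κ) :
    shH q (X (Sum.inr (Sum.inr k))) = X (Sum.inr (Sum.inr k)) := by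
  unfold shH
  rw [aeval_X, Sum.elim_inr, Sum.elim_inr]

theorem shH_u (q : κ → MvPolynomial (σ ⊕ κ) ℤ) (k : κ) :
    shH q (X (Sum.inr (Sum.inl k))) =
      X (Sum.inr (Sum.inl k)) + X (Sum.inl none) * rename emb (q k) := by
  unfold shH
  rw [aeval_X, Sum.elim_inr, Sum.elim_inl]

theorem shH_emb (q : κ → MvPolynomial (σ ⊕ κ) ℤ) (g : MvPolynomial (σ ⊕ κ) ℤ) :
    shH q (rename emb g) = rename emb g := by
  have h : (shH q).comp (rename emb) = rename emb := by
    apply MvPolynomial.algHom_ext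
    rintro (i | k)
    · rw [AlgHom.comp_apply, rename_X]
      exact shH_l q _
    · rw [AlgHom.comp_apply, rename_X]
      exact shH_v q _
  exact DFunLike.congr_fun h g

theorem shH_comp (q : κ → MvPolynomial (σ ⊕ κ) ℤ) :
    (shH q).comp (shH (-q)) = AlgHom.id ℤ _ := by
  apply MvPolynomial.algHom_ext
  rintro (i | k | k)
  · rw [AlgHom.comp_apply, shH_l, shH_l, AlgHom.id_apply]
  · rw [AlgHom.comp_apply, shH_u, map_add, map_mul, shH_u, shH_l, shH_emb, AlgHom.id_apply,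
      Pi.neg_apply, map_neg]
    ring
  · rw [AlgHom.comp_apply, shH_v, shH_v, AlgHom.id_apply]

/-- `u_k ↦ u_k + t q_k(x, z)` -/
noncomputable def shE (q : κ → MvPolynomial (σ ⊕ κ) ℤ) :
    MvPolynomial (Option σ ⊕ (κ ⊕ κ)) ℤ ≃ₐ[ℤ] MvPolynomial (Option σ ⊕ (κ ⊕ κ)) ℤ :=
  AlgEquiv.ofAlgHom (shH q) (shH (-q)) (shH_comp q) (by simpa using shH_comp (-q))

/-- **The automorphism of a coordinate system.** -/
theorem exists_auto (ψ : MvPolynomial (σ ⊕ κ) ℤ ≃ₐ[ℤ] MvPolynomial (σ ⊕ κ) ℤ)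
    (G : MvPolynomial (σ ⊕ κ) ℤ) :
    ∃ Φ : MvPolynomial (Option σ ⊕ (κ ⊕ κ)) ℤ ≃ₐ[ℤ] MvPolynomial (Option σ ⊕ (κ ⊕ κ)) ℤ,
      Φ (quad (cone (restr ψ G)) κ) = graph ψ G := by
  classical
  obtain ⟨q, hq⟩ := exists_quot (ψ.symm G)
  refine ⟨(shE q).trans (extE emb_inj ψ), ?_⟩
  have h1 : shE q (quad (cone (restr ψ G)) κ) = X (Sum.inl none) * rename emb (ψ.symm G) +
      ∑ k, X (Sum.inr (Sum.inl k)) * X (Sum.inr (Sum.inr k)) := by
    change shH q _ = _
    have h2 : rename Sum.inl (rename some (restr ψ G)) =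
        (rename emb (rename Sum.inl (restr ψ G) : MvPolynomial (σ ⊕ κ) ℤ) :
          MvPolynomial (Option σ ⊕ (κ ⊕ κ)) ℤ) := by
      rw [rename_rename, rename_rename]
      rfl
    unfold quad cone
    rw [map_mul, rename_X, h2, map_add, map_mul, shH_l, shH_emb, map_sum]
    have h3 : ∀ k, shH q (X (Sum.inr (Sum.inl k)) * X (Sum.inr (Sum.inr k))) =
        X (Sum.inr (Sum.inl k)) * X (Sum.inr (Sum.inr k)) +
          X (Sum.inl none) * rename emb (q k * X (Sum.inr k)) := by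
      intro k
      rw [map_mul, shH_u, shH_v, map_mul, rename_X]
      have : emb (Sum.inr k : σ ⊕ κ) = Sum.inr (Sum.inr k) := rfl
      rw [this]
      ring
    rw [Finset.sum_congr rfl fun k _ => h3 k, Finset.sum_add_distrib, ← Finset.mul_sum,
      ← map_sum]
    have h4 := congrArg (rename emb : MvPolynomial (σ ⊕ κ) ℤ → MvPolynomial (Option σ ⊕ (κ ⊕ κ)) ℤ)
      hq
    rw [map_add] at h4
    rw [h4]
    unfold restr
    ring
  change extE emb_inj ψ (shE q _) = _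
  rw [h1, map_add, map_mul, map_sum, extE_rename, ψ.apply_symm_apply,
    extE_ne emb_inj ψ _ fun a => emb_t a]
  unfold graph
  congr 1
  refine Finset.sum_congr rfl fun k _ => ?_
  rw [map_mul, extE_ne emb_inj ψ _ fun a => emb_u a k]
  congr 1
  have h5 : (X (Sum.inr (Sum.inr k)) : MvPolynomial (Option σ ⊕ (κ ⊕ κ)) ℤ) =
      rename emb (X (Sum.inr k)) := by rw [rename_X]; rfl
  rw [h5, extE_rename]

end graph

end Pool.Agent.K6.H7.SC
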