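import Pool.Agent.K6.H7.SC.Alg
import Pool.Agent.TH216.EP.Fin

set_option autoImplicit false
set_option linter.unusedSectionVars false

/-! # Poincare series of polynomials with affinely independent exponents -/

namespace Pool.Agent.K6.H7.SC

open MvPolynomial Pool.Agent.W427.SMC Pool.Agent.H628R4.TP Pool.Agent.N165.CU

/-- the Poincare series is rational, and the orders of the poles are bounded -/
def Loc (p : ℕ) {V : Type} [Fintype V] (f : MvPolynomial V ℤ) (b : Polynomial ℂ) : Prop :=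
  ∀ T₀ : ℂ, T₀ ≠ 0 → ∃ D N : Polynomial ℂ, D ≠ 0 ∧
    (D : PowerSeries ℂ) * poincare p f = (N : PowerSeries ℂ) ∧
    D.rootMultiplicity T₀ ≤ b.rootMultiplicity ((-Real.log ‖T₀‖ / Real.log p : ℝ) : ℂ)

theorem poin_eq {V : Type} [Fintype V] (p : ℕ) (f : MvPolynomial V ℤ) :
    Pool.Agent.W206.CU.poincare p f = poincare p f := by
  unfold Pool.Agent.W206.CU.poincare poincare solCount
  congr 1
  funext m
  rw [Nat.card_eq_fintype_card (α := V), div_eq_mul_inv, inv_pow, ← pow_mul, ← pow_mul,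
    mul_comm m]

section fin

variable {n k : ℕ} {p : ℕ}

open Pool.Agent.TH216.EP Pool.Agent.TH216.MF in
/-- **affinely independent exponents, with orders** -/
theorem loc_fin (hk : 2 ≤ k) (m : Fin k → Fin n → ℕ) (hm : Pool.Agent.W425.SM.Ind m)
    (c : Fin k → ℤ) (hc : ∀ j, c j ≠ 0) (hpp : p.Prime) (b : Polynomial ℂ) (hb0 : b ≠ 0)
    (hb : IsBFunction (map (Int.castRingHom ℂ) (∑ j, C (c j) * ∏ i, X i ^ m j i)) b) :
    Loc p (∑ j, C (c j) * ∏ i, X i ^ m j i) b := by
  classical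
  have : Fact p.Prime := ⟨hpp⟩
  intro T₀ hT0
  set f : MvPolynomial (Fin n) ℤ := ∑ j, C (c j) * ∏ i, X i ^ m j i with hf
  have hq : MvPolynomial.map (Int.castRingHom ℂ) f =
      Pool.Agent.W425.SM.sparse m (fun j => ((c j : ℤ) : ℂ)) := by
    rw [hf]
    unfold Pool.Agent.W425.SM.sparse
    rw [map_sum]
    refine Finset.sum_congr rfl fun j _ => ?_
    rw [map_mul, MvPolynomial.map_C, map_prod]
    simp
  rw [hq] at hb
  obtain ⟨P, hbP, hrel⟩ := Pool.Agent.W525.SM.taskA m _ b hk hm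
    (fun j => by exact_mod_cast hc j) hb
  have hP0 : P ≠ 0 := by
    rintro rfl
    apply hb0
    rw [hbP, mul_zero]
  obtain ⟨κ, hκ, hκR⟩ := poincare_mul (p := p) m hm c hc f hf
  obtain ⟨Q1, hQ1, hZ⟩ := crMu p hpp.two_le m P (relG_of_relM m P hrel) κ hκ T₀ hT0 hP0
  obtain ⟨R, hR⟩ := hκR _ hZ
  rw [poin_eq] at hR
  set t0 : ℂ := ((-Real.log ‖T₀‖ / Real.log p : ℝ) : ℂ) with ht0
  set ν : ℕ := P.rootMultiplicity t0 with hν
  have hp0 : (p : ℂ) ≠ 0 := by exact_mod_cast hpp.ne_zero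
  have hlin : (1 - Polynomial.C ((p : ℂ)⁻¹) * Polynomial.X : Polynomial ℂ) =
      Polynomial.C (-(p : ℂ)⁻¹) * (Polynomial.X - Polynomial.C (p : ℂ)) := by
    rw [mul_sub, ← Polynomial.C_mul, neg_mul, inv_mul_cancel₀ hp0]
    simp only [map_neg, map_one]
    ring
  have hlin0 : (1 - Polynomial.C ((p : ℂ)⁻¹) * Polynomial.X : Polynomial ℂ) ≠ 0 := by
    rw [hlin]
    exact mul_ne_zero (Polynomial.C_ne_zero.2 (neg_ne_zero.2 (inv_ne_zero hp0)))
      (Polynomial.X_sub_C_ne_zero _)
  have hQ10 : Q1 ≠ 0 := by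
    rintro rfl
    simp at hQ1
  have hpow0 : (Polynomial.X - Polynomial.C T₀ : Polynomial ℂ) ^ ν ≠ 0 :=
    pow_ne_zero _ (Polynomial.X_sub_C_ne_zero _)
  have hD0 : Q1 * (Polynomial.X - Polynomial.C T₀) ^ ν *
      (1 - Polynomial.C ((p : ℂ)⁻¹) * Polynomial.X) ≠ 0 :=
    mul_ne_zero (mul_ne_zero hQ10 hpow0) hlin0
  refine ⟨_, R, hD0, hR, ?_⟩
  have h2 : (Q1 * (Polynomial.X - Polynomial.C T₀) ^ ν *
      (1 - Polynomial.C ((p : ℂ)⁻¹) * Polynomial.X)).rootMultiplicity T₀ =
      ν + (1 - Polynomial.C ((p : ℂ)⁻¹) * Polynomial.X : Polynomial ℂ).rootMultiplicity T₀ := by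
    rw [Polynomial.rootMultiplicity_mul hD0,
      Polynomial.rootMultiplicity_mul (mul_ne_zero hQ10 hpow0),
      Polynomial.rootMultiplicity_eq_zero hQ1, Polynomial.rootMultiplicity_X_sub_C_pow, zero_add]
  rw [h2]
  have hX1 : (Polynomial.X + 1 : Polynomial ℂ) = Polynomial.X - Polynomial.C (-1) := by
    simp
  have hX10 : (Polynomial.X + 1 : Polynomial ℂ) ≠ 0 := by
    rw [hX1]
    exact Polynomial.X_sub_C_ne_zero _
  have h3 : b.rootMultiplicity t0 = (Polynomial.X + 1 : Polynomial ℂ).rootMultiplicity t0 + ν := by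
    rw [hbP, Polynomial.rootMultiplicity_mul (mul_ne_zero hX10 hP0)]
  have h4 : (1 - Polynomial.C ((p : ℂ)⁻¹) * Polynomial.X : Polynomial ℂ).rootMultiplicity T₀ ≤
      (Polynomial.X + 1 : Polynomial ℂ).rootMultiplicity t0 := by
    by_cases hTp : T₀ = p
    · have hlp : Real.log p ≠ 0 :=
        (Real.log_pos (by exact_mod_cast hpp.one_lt)).ne'
      have h5 : t0 = -1 := by
        rw [ht0, hTp, Complex.norm_natCast, neg_div, div_self hlp]
        push_cast
        rfl
      rw [h5, hX1, Polynomial.rootMultiplicity_X_sub_C_self, hlin, hTp,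
        Polynomial.rootMultiplicity_mul (by rw [← hlin]; exact hlin0),
        Polynomial.rootMultiplicity_C, Polynomial.rootMultiplicity_X_sub_C_self]
    · have h5 : (1 - Polynomial.C ((p : ℂ)⁻¹) * Polynomial.X : Polynomial ℂ).rootMultiplicity T₀
          = 0 := by
        apply Polynomial.rootMultiplicity_eq_zero
        rw [hlin]
        intro h
        rw [Polynomial.IsRoot, Polynomial.eval_mul, Polynomial.eval_C, Polynomial.eval_sub,
          Polynomial.eval_X, Polynomial.eval_C] at h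
        rcases mul_eq_zero.1 h with h | h
        · exact neg_ne_zero.2 (inv_ne_zero hp0) h
        · exact hTp (sub_eq_zero.1 h)
      rw [h5]
      exact Nat.zero_le _
  rw [h3]
  omega

end fin

/-- **affinely independent exponents, any finite sets of variables and of monomials** -/
theorem loc_sparse {V J : Type} [Fintype V] [Fintype J] (hJ : 2 ≤ Fintype.card J)
    (v : J → V → ℕ) (hv : AffineIndependent ℚ fun (j : J) (i : V) => (v j i : ℚ))
    (c : J → ℤ) (hc : ∀ j, c j ≠ 0) {p : ℕ} (hpp : p.Prime) (b : Polynomial ℂ) (hb0 : b ≠ 0)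
    (hb : IsBFunction (map (Int.castRingHom ℂ) (∑ j, C (c j) * ∏ i, X i ^ v j i)) b) :
    Loc p (∑ j, C (c j) * ∏ i, X i ^ v j i) b := by
  classical
  set eV := Fintype.equivFin V with heV
  set eJ := Fintype.equivFin J with heJ
  set m : Fin (Fintype.card J) → Fin (Fintype.card V) → ℕ := fun j i => v (eJ.symm j) (eV.symm i)
    with hm
  have hren : rename eV (∑ j, C (c j) * ∏ i, X i ^ v j i : MvPolynomial V ℤ) =
      ∑ j, C (c (eJ.symm j)) * ∏ i, X i ^ m j i := by
    rw [map_sum, ← eJ.symm.sum_comp]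
    refine Finset.sum_congr rfl fun j _ => ?_
    rw [map_mul, rename_C, map_prod, ← eV.symm.prod_comp]
    congr 1
    refine Finset.prod_congr rfl fun i _ => ?_
    rw [map_pow, rename_X, Equiv.apply_symm_apply]
  have hind : Pool.Agent.W425.SM.Ind m := by
    unfold Pool.Agent.W425.SM.Ind
    have h1 : AffineIndependent ℚ fun (j : Fin (Fintype.card J)) (i : V) =>
        (v (eJ.symm j) i : ℚ) := hv.comp_embedding eJ.symm.toEmbedding
    have h2 := (LinearMap.toAffineMap ((LinearEquiv.funCongrLeft ℚ ℚ eV.symm).toLinearMap))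
    have h3 := h1.map' (LinearMap.toAffineMap ((LinearEquiv.funCongrLeft ℚ ℚ eV.symm).toLinearMap))
      (by
        intro a b h
        exact (LinearEquiv.funCongrLeft ℚ ℚ eV.symm).injective h)
    exact h3
  have hb' : IsBFunction (map (Int.castRingHom ℂ)
      (∑ j, C (c (eJ.symm j)) * ∏ i, X i ^ m j i)) b := by
    rw [← hren, map_rename]
    exact bfun_rename eV _ b hb
  have h := loc_fin (p := p) hJ m hind (fun j => c (eJ.symm j)) (fun j => hc _) hpp b hb0 hb'
  intro T₀ hT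
  obtain ⟨D, N, h1, h2, h3⟩ := h T₀ hT
  refine ⟨D, N, h1, ?_, h3⟩
  rw [← hren, poincare_rename] at h2
  exact h2

/-- multiplicities after scaling -/
theorem rootMult_scale (D : Polynomial ℂ) (hD : D ≠ 0) (a : ℂ) (ha : a ≠ 0) (T₀ : ℂ) :
    D.comp (Polynomial.C a * Polynomial.X) ≠ 0 ∧
    (D.comp (Polynomial.C a * Polynomial.X)).rootMultiplicity T₀ = D.rootMultiplicity (a * T₀) := by
  have hne : D.comp (Polynomial.C a * Polynomial.X) ≠ 0 := by
    intro h
    apply hD
    have h4 := congrArg (fun r : Polynomial ℂ => r.comp (Polynomial.C a⁻¹ * Polynomial.X)) h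
    simp only [Polynomial.comp_assoc, Polynomial.mul_comp, Polynomial.C_comp,
      Polynomial.X_comp, Polynomial.zero_comp] at h4
    rw [← mul_assoc, ← Polynomial.C_mul, mul_inv_cancel₀ ha, Polynomial.C_1, one_mul,
      Polynomial.comp_X] at h4
    exact h4
  refine ⟨hne, ?_⟩
  obtain ⟨R, hR, hnd⟩ := Polynomial.exists_eq_pow_rootMultiplicity_mul_and_not_dvd D hD (a * T₀)
  have h6 : (Polynomial.X - Polynomial.C (a * T₀)).comp (Polynomial.C a * Polynomial.X) =
      Polynomial.C a * (Polynomial.X - Polynomial.C T₀) := by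
    rw [Polynomial.sub_comp, Polynomial.X_comp, Polynomial.C_comp, mul_sub, ← Polynomial.C_mul]
  have h7 : D.comp (Polynomial.C a * Polynomial.X) =
      (Polynomial.X - Polynomial.C T₀) ^ D.rootMultiplicity (a * T₀) *
      (Polynomial.C (a ^ D.rootMultiplicity (a * T₀)) *
        R.comp (Polynomial.C a * Polynomial.X)) := by
    conv_lhs => rw [hR]
    rw [Polynomial.mul_comp, Polynomial.pow_comp, h6, mul_pow, ← Polynomial.C_pow]
    ring
  have h8 : ¬ (Polynomial.C (a ^ D.rootMultiplicity (a * T₀)) *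
      R.comp (Polynomial.C a * Polynomial.X)).IsRoot T₀ := by
    rw [Polynomial.IsRoot.def, Polynomial.eval_mul, Polynomial.eval_C, Polynomial.eval_comp,
      Polynomial.eval_mul, Polynomial.eval_C, Polynomial.eval_X]
    refine mul_ne_zero (pow_ne_zero _ ha) fun h => hnd (Polynomial.dvd_iff_isRoot.2 h)
  have h9 : (Polynomial.X - Polynomial.C T₀) ^ D.rootMultiplicity (a * T₀) *
      (Polynomial.C (a ^ D.rootMultiplicity (a * T₀)) *
        R.comp (Polynomial.C a * Polynomial.X)) ≠ 0 := by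
    rw [← h7]
    exact hne
  rw [h7, Polynomial.rootMultiplicity_mul h9, Polynomial.rootMultiplicity_X_sub_C_pow,
    Polynomial.rootMultiplicity_eq_zero h8, add_zero]

/-- **Denef's question for `f`, `p` and `b`, with orders**: the Poincare series is the expansion of a
rational function, and the order of the pole at `T₀` is at most the multiplicity of `t₀` as a root of
`b`. -/
def Holds (p : ℕ) {V : Type} [Fintype V] (f : MvPolynomial V ℤ) (b : Polynomial ℂ) : Prop :=
  ∃ Φ : RatFunc ℂ, ((Φ.denom : Polynomial ℂ) : PowerSeries ℂ) * poincare p f =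
      ((Φ.num : Polynomial ℂ) : PowerSeries ℂ) ∧
    ∀ T₀ : ℂ, Φ.denom.rootMultiplicity T₀ ≤
      b.rootMultiplicity ((-Real.log ‖T₀‖ / Real.log p : ℝ) : ℂ)

/-- the rational function of a power series -/
theorem exists_ratFunc {S : PowerSeries ℂ} {D N : Polynomial ℂ} (hD : D ≠ 0)
    (h : (D : PowerSeries ℂ) * S = (N : PowerSeries ℂ)) :
    ∃ Φ : RatFunc ℂ, ((Φ.denom : Polynomial ℂ) : PowerSeries ℂ) * S =
      ((Φ.num : Polynomial ℂ) : PowerSeries ℂ) ∧
      ∀ D' N' : Polynomial ℂ, (D' : PowerSeries ℂ) * S = (N' : PowerSeries ℂ) →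
        Φ.denom ∣ D' := by
  set Φ : RatFunc ℂ := algebraMap (Polynomial ℂ) (RatFunc ℂ) N /
    algebraMap (Polynomial ℂ) (RatFunc ℂ) D with hΦ
  have h1 : Φ.num * D = N * Φ.denom := (RatFunc.num_mul_eq_mul_denom_iff hD).2 rfl
  have hDc : (D : PowerSeries ℂ) ≠ 0 := by
    rw [Ne, Polynomial.coe_eq_zero_iff]
    exact hD
  have h2 : ((Φ.denom : Polynomial ℂ) : PowerSeries ℂ) * S =
      ((Φ.num : Polynomial ℂ) : PowerSeries ℂ) := by
    apply mul_left_cancel₀ hDc
    have h3 := congrArg (fun q : Polynomial ℂ => (q : PowerSeries ℂ)) h1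
    simp only [Polynomial.coe_mul] at h3
    calc (D : PowerSeries ℂ) * (((Φ.denom : Polynomial ℂ) : PowerSeries ℂ) * S) =
        ((Φ.denom : Polynomial ℂ) : PowerSeries ℂ) * ((D : PowerSeries ℂ) * S) := by ring
      _ = (N : PowerSeries ℂ) * ((Φ.denom : Polynomial ℂ) : PowerSeries ℂ) := by rw [h]; ring
      _ = _ := by rw [← h3]; ring
  refine ⟨Φ, h2, fun D' N' h' => ?_⟩
  have h3 : D' * Φ.num = Φ.denom * N' := by
    apply Polynomial.coe_injective ℂ
    rw [Polynomial.coe_mul, Polynomial.coe_mul, ← h2, ← h']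
    ring
  exact (RatFunc.isCoprime_num_denom Φ).symm.dvd_of_dvd_mul_right ⟨N', h3⟩

/-- **The transfer.** -/
theorem transfer {V κ W : Type} [Fintype V] [Fintype κ] [Fintype W] (hκ : 2 ≤ Fintype.card κ)
    (f : MvPolynomial V ℤ) (F : MvPolynomial W ℤ) (p : ℕ) [Fact p.Prime]
    (hP : poincare p F = poincare p (quad (cone f) κ)) (b : Polynomial ℂ) (hb0 : b ≠ 0)
    (hF : Loc p F ((Polynomial.X + 1) *
      b.comp (Polynomial.X + Polynomial.C (Fintype.card κ : ℂ)))) : Holds p f b := by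
  have hp1 : (1 : ℝ) < (p : ℝ) := by exact_mod_cast (Fact.out : p.Prime).one_lt
  have hp0 : (p : ℂ) ≠ 0 := by exact_mod_cast (Fact.out : p.Prime).ne_zero
  have hlog : 0 < Real.log p := Real.log_pos hp1
  set m : ℕ := Fintype.card κ with hm
  set a : ℂ := (p : ℂ) ^ m with ha
  have ha0 : a ≠ 0 := pow_ne_zero _ hp0
  have hrel := poincare_rel p (κ := κ) parts.c2 f
  rw [← hP] at hrel
  have hc : (p : ℂ) - 1 ≠ 0 := by
    intro h
    have h4 : (p : ℂ) = 1 := sub_eq_zero.1 h
    have h5 : (p : ℝ) = 1 := by exact_mod_cast h4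
    linarith
  -- local denominators
  have key : ∀ D N : Polynomial ℂ, (D : PowerSeries ℂ) * poincare p F = (N : PowerSeries ℂ) →
      ∃ N' : Polynomial ℂ, (((Polynomial.C ((p : ℂ) - 1) *
        D.comp (Polynomial.C a * Polynomial.X) : Polynomial ℂ)) : PowerSeries ℂ) * poincare p f =
        (N' : PowerSeries ℂ) := by
    intro D N h
    refine ⟨((Polynomial.C (p : ℂ) - Polynomial.X) * N - D).comp
      (Polynomial.C a * Polynomial.X), ?_⟩
    have h1 : (D : PowerSeries ℂ) * (PowerSeries.C ((p : ℂ) - 1) *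
        PowerSeries.rescale (((p : ℂ) ^ m)⁻¹) (poincare p f)) =
        (((Polynomial.C (p : ℂ) - Polynomial.X) * N - D : Polynomial ℂ) : PowerSeries ℂ) := by
      rw [Polynomial.coe_sub, Polynomial.coe_mul, Polynomial.coe_sub, Polynomial.coe_C,
        Polynomial.coe_X, ← h]
      linear_combination -(D : PowerSeries ℂ) * hrel
    have h2 := congrArg (PowerSeries.rescale a) h1
    rw [map_mul, map_mul, rescale_poly, rescale_poly, PowerSeries.rescale_rescale] at h2
    have h3 : ((p : ℂ) ^ m)⁻¹ * a = 1 := inv_mul_cancel₀ ha0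
    have h3' : a * ((p : ℂ) ^ m)⁻¹ = 1 := mul_inv_cancel₀ ha0
    have h4 : PowerSeries.rescale a (PowerSeries.C ((p : ℂ) - 1)) =
        PowerSeries.C ((p : ℂ) - 1) := by
      ext n
      rw [PowerSeries.coeff_rescale, PowerSeries.coeff_C]
      split_ifs with h
      · rw [h, pow_zero, one_mul]
      · rw [mul_zero]
    rw [h4] at h2
    first
      | rw [h3, PowerSeries.rescale_one] at h2
      | rw [h3', PowerSeries.rescale_one] at h2
    rw [← h2, Polynomial.coe_mul, Polynomial.coe_C]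
    simp only [RingHom.id_apply]
    ring
  obtain ⟨D1, N1, hD1, h1, -⟩ := hF 1 one_ne_zero
  obtain ⟨N1', h1'⟩ := key D1 N1 h1
  have hne : ∀ D : Polynomial ℂ, D ≠ 0 → Polynomial.C ((p : ℂ) - 1) *
      D.comp (Polynomial.C a * Polynomial.X) ≠ 0 := fun D hD =>
    mul_ne_zero (Polynomial.C_ne_zero.2 hc) (rootMult_scale D hD a ha0 0).1
  obtain ⟨Φ, hΦ, hdvd⟩ := exists_ratFunc (hne D1 hD1) h1'
  refine ⟨Φ, hΦ, fun T₀ => ?_⟩
  by_cases h0 : Φ.denom.eval T₀ = 0
  · have hT := one_le_norm p f Φ.num Φ.denom (RatFunc.isCoprime_num_denom Φ) hΦ T₀ h0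
    have hT0 : T₀ ≠ 0 := by
      rintro rfl
      rw [norm_zero] at hT
      linarith
    obtain ⟨D, N, hD, h2, h3⟩ := hF (a * T₀) (mul_ne_zero ha0 hT0)
    obtain ⟨N', h2'⟩ := key D N h2
    have h4 := Polynomial.rootMultiplicity_le_rootMultiplicity_of_dvd (hne D hD)
      (hdvd _ _ h2') T₀
    have h5 : (Polynomial.C ((p : ℂ) - 1) *
        D.comp (Polynomial.C a * Polynomial.X)).rootMultiplicity T₀ =
        D.rootMultiplicity (a * T₀) := by
      rw [Polynomial.rootMultiplicity_mul (hne D hD), Polynomial.rootMultiplicity_C, zero_add,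
        (rootMult_scale D hD a ha0 T₀).2]
    rw [h5] at h4
    refine h4.trans (h3.trans (le_of_eq ?_))
    have hlogT : (((-Real.log ‖a * T₀‖ / Real.log p : ℝ)) : ℂ) =
        ((-Real.log ‖T₀‖ / Real.log p : ℝ) : ℂ) - (m : ℂ) := by
      rw [ha, norm_mul, norm_pow, Complex.norm_natCast, Real.log_mul (by positivity) (by linarith),
        Real.log_pow]
      have : -(↑m * Real.log ↑p + Real.log ‖T₀‖) / Real.log ↑p =
          -Real.log ‖T₀‖ / Real.log ↑p - (m : ℝ) := by
        field_simp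
        ring
      rw [this]
      push_cast
      rfl
    have hne1 : ((-Real.log ‖T₀‖ / Real.log p : ℝ) : ℂ) - (m : ℂ) + 1 ≠ 0 := by
      intro h
      have h1 : -Real.log ‖T₀‖ / Real.log p - (m : ℝ) + 1 = 0 := by exact_mod_cast h
      have h2 : (2 : ℝ) ≤ (m : ℝ) := by exact_mod_cast hκ
      have h3 : -Real.log ‖T₀‖ / Real.log p ≤ 0 := by
        apply div_nonpos_of_nonpos_of_nonneg _ hlog.le
        have := Real.log_nonneg hT
        linarith
      linarith
    rw [hlogT, rootMult_shift b hb0 _ _ hne1, sub_add_cancel]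
  · rw [Polynomial.rootMultiplicity_eq_zero (p := Φ.denom) h0]
    exact Nat.zero_le _

end Pool.Agent.K6.H7.SC
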